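import Pool.Agent.D0H92.L9.Ord

/-!
# Project L9 (helper92): the ordinates of the points of `y ^ 2 + d y = x ^ 3` over `ℚ₃(ω)`, `d` a
uniformizer: the class of `Y` modulo cubes and units `1` modulo `(√-3) ^ 3` is generated by `d` and
`1 + d - d ^ 2`
-/

set_option autoImplicit false

namespace Pool.Agent.D0H92.L9

open Pool.Agent.Y692.QS
open Pool.Agent.Y715.T.Gi Pool.Agent.Y715.T.Nr Pool.Agent.Y715.T.Df Pool.Agent.Y715.T.Ell
open Pool.Agent.Y715.T.Red Pool.Agent.Y715.T.Thr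
open Pool.Agent.Y703.CT
open Pool.Agent.Y180.CT

open scoped Classical

variable {I : PadicAlgCl 3}

/-- the quotient of two elements of `Kl I`, the first of which is smaller -/
lemma lt_lam (hI : I ^ 2 + I + 1 = 0) {d Y : PadicAlgCl 3}
    (hd1 : ‖d‖ = ‖1 + 2 * I‖) (hY : Y ∈ Kl I) (h : ‖Y‖ < ‖d‖) : ‖Y‖ ≤ ‖d‖ ^ 2 := by
  have hlp := lam_pos hI
  have h1 : ‖Y / (1 + 2 * I)‖ < 1 := by
    rw [norm_div, div_lt_one hlp, ← hd1]
    exact h
  have h2 := le_lam hI (Kl_le (div_mem hY lam_mem)) h1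
  rw [norm_div, div_le_iff₀ hlp] at h2
  rw [hd1, pow_two]
  exact h2

/-- small ordinates -/
theorem ordB (hI : I ^ 2 + I + 1 = 0) {d X Y : PadicAlgCl 3} (hd : d ∈ Kl I)
    (hd1 : ‖d‖ = ‖1 + 2 * I‖) (hX : X ∈ Kl I) (hY : Y ∈ Kl I) (hY0 : Y ≠ 0) (hY1 : ‖Y‖ < ‖d‖)
    (he : Y ^ 2 + d * Y = X ^ 3) :
    ∃ n m : ℕ, ∃ V ∈ Kl I, V ≠ 0 ∧ ∃ z, U1 I z ∧
      d ^ n * (1 + d - d ^ 2) ^ m = Y * (V ^ 3 * z) := by
  have hd0 : d ≠ 0 := by
    rintro rfl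
    rw [norm_zero] at hd1
    exact (lam_pos hI).ne hd1
  have hYn : 0 < ‖Y‖ := norm_pos_iff.2 hY0
  obtain ⟨m, V, hV, hV0, z, hz, e⟩ := ordA hI (d := d) (X := d * X / Y) (Y := d ^ 2 / Y) hd hd1
    (div_mem (mul_mem hd hX) hY) (div_mem (pow_mem hd 2) hY)
    (by
      rw [norm_div, norm_pow, one_le_div hYn]
      exact lt_lam hI hd1 hY hY1)
    (by
      rw [div_pow (d * X), mul_pow, ← he]
      field_simp
      ring)
  have hU0 : (1 + d - d ^ 2) ^ m ≠ 0 := by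
    rw [e]
    exact mul_ne_zero (div_ne_zero (pow_ne_zero 2 hd0) hY0)
      (mul_ne_zero (pow_ne_zero 3 hV0) (hz.ne hI))
  have hz0 := hz.ne hI
  obtain ⟨A, hA⟩ : ∃ A, A = (1 + d - d ^ 2) ^ m := ⟨_, rfl⟩
  have hAm : A ∈ Kl I := by
    rw [hA]
    exact pow_mem (sub_mem (add_mem (one_mem _) hd) (pow_mem hd 2)) m
  rw [← hA] at e hU0
  refine ⟨2, 2 * m, A / V, div_mem hAm hV, div_ne_zero hU0 hV0, z⁻¹, hz.inv hI, ?_⟩
  have e2 : (1 + d - d ^ 2) ^ (2 * m) = A ^ 2 := by rw [hA, ← pow_mul, mul_comm]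
  rw [e2]
  have e3 : A * Y = d ^ 2 * (V ^ 3 * z) := by
    rw [e]
    field_simp
  have e4 : Y * ((A / V) ^ 3 * z⁻¹) = A ^ 2 * ((A * Y) / (V ^ 3 * z)) := by
    field_simp
  rw [e4, e3, mul_div_assoc, div_self (mul_ne_zero (pow_ne_zero 3 hV0) hz0), mul_one, mul_comm]

/-- **the class of the ordinate** -/
theorem ord9 (hI : I ^ 2 + I + 1 = 0) {d X Y : PadicAlgCl 3} (hd : d ∈ Kl I)
    (hd1 : ‖d‖ = ‖1 + 2 * I‖) (hX : X ∈ Kl I) (hY : Y ∈ Kl I) (hY0 : Y ≠ 0)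
    (he : Y ^ 2 + d * Y = X ^ 3) :
    ∃ n m : ℕ, ∃ V ∈ Kl I, V ≠ 0 ∧ ∃ z, U1 I z ∧
      d ^ n * (1 + d - d ^ 2) ^ m = Y * (V ^ 3 * z) := by
  have hd0 : d ≠ 0 := by
    rintro rfl
    rw [norm_zero] at hd1
    exact (lam_pos hI).ne hd1
  have he' : Y * (Y + d) = X ^ 3 := by rw [← he]; ring
  rcases lt_trichotomy ‖Y‖ ‖d‖ with h1 | h1 | h1
  · exact ordB hI hd hd1 hX hY hY0 h1 he
  · -- equal norms
    by_cases h0 : Y + d = 0
    · refine ⟨1, 0, -1, neg_mem (one_mem _), neg_ne_zero.2 one_ne_zero, 1, U1.one, ?_⟩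
      rw [pow_one, pow_zero]
      linear_combination h0
    have hX0 : X ≠ 0 := by
      rintro rfl
      rw [zero_pow three_ne_zero] at he'
      rcases mul_eq_zero.1 he' with h | h
      · exact hY0 h
      · exact h0 h
    have h2 : ‖Y + d‖ ≤ ‖d‖ := add_le h1.le le_rfl
    have h3 : ‖Y + d‖ < ‖d‖ := by
      refine lt_of_le_of_ne h2 fun h4 => ?_
      obtain ⟨j, hj⟩ := val hI (Kl_le hX) hX0
      have h5 : ‖X‖ ^ 3 = ‖d‖ ^ 2 := by rw [← norm_pow, ← he', norm_mul, h1, h4, pow_two]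
      have h6 : (3 : ℝ) ^ (3 * j) = (3 : ℝ) ^ (-2 : ℤ) := by
        have e1 : (3 : ℝ) ^ (3 * j) = (‖X‖ ^ 3) ^ 2 := by
          rw [mul_comm, zpow_mul, ← hj]
          norm_cast
          ring
        have e2 : (‖d‖ ^ 2) ^ 2 = (3 : ℝ) ^ (-2 : ℤ) := by
          rw [hd1, norm_lam hI]
          norm_num
        rw [e1, h5, e2]
      have h7 := zpow_right_injective₀ (a := (3 : ℝ)) (by norm_num) (by norm_num) h6
      omega
    obtain ⟨n, m, V, hV, hV0, z, hz, e⟩ := ordB hI (d := d) (X := X) (Y := -(Y + d)) hd hd1 hX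
      (neg_mem (add_mem hY hd)) (neg_ne_zero.2 h0) (by rwa [norm_neg])
      (by rw [← he]; ring)
    have hz0 := hz.ne hI
    obtain ⟨A, hA⟩ : ∃ A, A = d ^ n * (1 + d - d ^ 2) ^ m := ⟨_, rfl⟩
    have hAm : A ∈ Kl I := by
      rw [hA]
      exact mul_mem (pow_mem hd n) (pow_mem (sub_mem (add_mem (one_mem _) hd) (pow_mem hd 2)) m)
    rw [← hA] at e
    have hA0 : A ≠ 0 := by
      rw [e]
      exact mul_ne_zero (neg_ne_zero.2 h0) (mul_ne_zero (pow_ne_zero 3 hV0) hz0)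
    refine ⟨2 * n, 2 * m, -A / (X * V), div_mem (neg_mem hAm) (mul_mem hX hV),
      div_ne_zero (neg_ne_zero.2 hA0) (mul_ne_zero hX0 hV0), z⁻¹, hz.inv hI, ?_⟩
    have e1 : d ^ (2 * n) * (1 + d - d ^ 2) ^ (2 * m) = A ^ 2 := by
      rw [hA, mul_pow, ← pow_mul, ← pow_mul, mul_comm n, mul_comm m]
    have e2 : A * Y = -(X ^ 3 * (V ^ 3 * z)) := by
      rw [e, ← he']
      ring
    rw [e1]
    have e3 : Y * ((-A / (X * V)) ^ 3 * z⁻¹) = A ^ 2 * (-(A * Y) / (X ^ 3 * (V ^ 3 * z))) := by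
      field_simp
    rw [e3, e2, neg_neg, div_self, mul_one]
    exact mul_ne_zero (pow_ne_zero 3 hX0) (mul_ne_zero (pow_ne_zero 3 hV0) hz0)
  · -- large ordinates
    have h2 : 1 ≤ ‖Y‖ := by
      by_contra hcon
      push Not at hcon
      have := le_lam hI (Kl_le hY) hcon
      rw [hd1] at h1
      linarith
    obtain ⟨m, V, hV, hV0, z, hz, e⟩ := ordA hI hd hd1 hX hY h2 he
    refine ⟨0, m, V, hV, hV0, z, hz, ?_⟩
    rw [pow_zero, one_mul, e]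

end Pool.Agent.D0H92.L9
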