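import Pool.Agent.D0H43.L9.StmS
import Pool.Agent.N883.FF.Chi
import Pool.Agent.D0H92.L9.Ord9

/-!
# Project L9 (helper92): the local condition at the prime above three, for `D = 9 ω ^ k (1 + 3 r)`
-/

set_option autoImplicit false
set_option linter.unusedSectionVars false
set_option linter.unusedVariables false

namespace Pool.Agent.D0H92.L9

open WeierstrassCurve
open Pool.Agent.Y692.QS
open Pool.Agent.Y715.T.Gi Pool.Agent.Y715.T.Nr Pool.Agent.Y715.T.Df Pool.Agent.Y715.T.Ell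
open Pool.Agent.Y715.T.Red Pool.Agent.Y715.T.Thr
open Pool.Agent.Y703.CT
open Pool.Agent.Y180.CT
open Pool.Agent.N883.FF (nq)
open Pool.Agent.N883.FF.Chi (nq_mul nq_congr nq_int nq_unit)

open scoped Classical

/-! ### Identities in `ℤ[ω]` -/

lemma w3 : (w : Ei) ^ 3 = 1 := by decide

lemma lamw : (w : Ei) = 1 - lam - lam ^ 2 * w := by decide

lemma lamsq : lam ^ 2 = -3 := Pool.Agent.Y715.T.Gi.lam_sq

/-- powers of `ω` modulo `lam ^ 2` -/
lemma w_pow (k : ℕ) : ∃ s : Ei, w ^ k = 1 - k * lam + lam ^ 2 * s := by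
  induction k with
  | zero => exact ⟨0, by simp⟩
  | succ k ih =>
    obtain ⟨s, hs⟩ := ih
    refine ⟨k + s * (1 - lam - lam ^ 2 * w) - w * (1 - k * lam), ?_⟩
    have e : w ^ (k + 1) = w ^ k * (1 - lam - lam ^ 2 * w) := by rw [← lamw, pow_succ]
    rw [e, hs]
    push_cast
    ring

/-- the ordinate `1 + d - d ^ 2` for `d = lam ω ^ k (1 + 3 r)` -/
lemma U_eq (k : ℕ) (r : Ei) : ∃ q : Ei,
    1 + lam * (w ^ k * (1 + 3 * r)) - (lam * (w ^ k * (1 + 3 * r))) ^ 2 = w ^ 2 * (1 + 3 * q) ∧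
      nq (1 + 3 * q) = -(k : ZMod 3) := by
  obtain ⟨s, hs⟩ := w_pow k
  have h3 : (3 : Ei) = -(lam ^ 2) := by rw [lamsq, neg_neg]
  -- `d = lam + 3 k + 3 lam c`
  obtain ⟨c, hc⟩ : ∃ c, lam * (w ^ k * (1 + 3 * r)) = lam + 3 * k + 3 * lam * c := by
    refine ⟨-s + w ^ k * r, ?_⟩
    have e : lam * (w ^ k * (1 + 3 * r)) = lam * w ^ k + 3 * lam * (w ^ k * r) := by ring
    rw [e]
    have e2 : lam * w ^ k = lam - k * lam ^ 2 + lam ^ 2 * (lam * s) := by rw [hs]; ring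
    rw [e2, lamsq]
    ring
  obtain ⟨c', hc'⟩ : ∃ c', 1 + lam * (w ^ k * (1 + 3 * r)) - (lam * (w ^ k * (1 + 3 * r))) ^ 2 =
      4 + lam + 3 * k + 3 * lam * c' := by
    refine ⟨c - (2 * k + lam * (-(k : Ei) ^ 2) + 2 * lam * c + 6 * k * c + 3 * lam * c ^ 2), ?_⟩
    rw [hc]
    have e : (lam + 3 * (k : Ei) + 3 * lam * c) ^ 2 = lam ^ 2 + 3 * 3 * (k : Ei) ^ 2 +
        3 * lam * (2 * k + 2 * lam * c + 6 * k * c + 3 * lam * c ^ 2) := by ring
    rw [e]
    have h9 : (3 * 3 * (k : Ei) ^ 2) = -(3 * lam * (lam * (k : Ei) ^ 2)) := by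
      have : (3 * 3 * (k : Ei) ^ 2) = 3 * -(lam ^ 2) * (k : Ei) ^ 2 := by rw [← h3]
      rw [this]
      ring
    rw [h9]
    linear_combination (-1 : Ei) * lamsq
  -- compare with `ω ^ 2 (1 + 3 k)`
  have e1 : (4 : Ei) + lam = w ^ 2 - 3 * lam * w := by decide
  have e2 : (3 : Ei) = w ^ 2 * 3 - 3 * lam * w := by decide
  have e3 : (1 : Ei) = w ^ 2 * w := by decide
  refine ⟨k + lam * (w * (-w - k * w + c')), ?_, ?_⟩
  · rw [hc']
    have e4 : w ^ 2 * (1 + 3 * ((k : Ei) + lam * (w * (-w - k * w + c')))) =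
        w ^ 2 + (w ^ 2 * 3) * k + 3 * lam * (w ^ 2 * w) * (-w - k * w + c') := by ring
    rw [e4, ← e3]
    have e5 : w ^ 2 * 3 = 3 + 3 * lam * w := by linear_combination (-1 : Ei) * e2
    have e6 : w ^ 2 = 4 + lam + 3 * lam * w := by linear_combination (-1 : Ei) * e1
    rw [e5, e6]
    ring
  · have h := nq_congr (x := 1 + 3 * ((k : Ei) + lam * (w * (-w - k * w + c'))))
      (y := 1 + 3 * (((k : ℤ) : Ei))) (t := w * (-w - k * w + c')) (by
        show _ = 3 * lam * _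
        push_cast
        ring)
    rw [h, nq_int]
    push_cast
    rfl

lemma cop3 (q : Ei) : IsCoprime (1 + 3 * q) 3 := ⟨1, -q, by ring⟩

lemma nq_pow {x : Ei} (hx : IsCoprime x 3) (n : ℕ) : nq (x ^ n) = n * nq x := by
  induction n with
  | zero => simp [nq_unit isUnit_one]
  | succ n ih =>
    rw [pow_succ, nq_mul (hx.pow_left) hx, ih]
    push_cast
    ring

lemma w_val (m : ℕ) : (w : Ei) ^ m = w ^ (m : ZMod 3).val := by
  rw [ZMod.val_natCast]
  exact (pow_mod_orderOf_aux m)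
where
  pow_mod_orderOf_aux (m : ℕ) : (w : Ei) ^ m = w ^ (m % 3) := by
    conv_lhs => rw [← Nat.div_add_mod m 3, pow_add, pow_mul, w3, one_pow, one_mul]

section final

variable {i₀ : QB} {hi : i₀ ^ 2 + i₀ + 1 = 0} {D : Ei} {u : QB} {a h : GK i₀ → ZMod 3}
  {ι : QB →ₐ[ℚ] PadicAlgCl 3} {R : Pt (PadicAlgCl 3)}

lemma w_unit : IsUnit w := by
  rw [isUnit_iff]
  decide

/-- the conclusion -/
lemma fin9 (hi : i₀ ^ 2 + i₀ + 1 = 0) (ι : QB →ₐ[ℚ] PadicAlgCl 3) {v q r : Ei} {k g n m : ℕ}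
    (hv : IsUnit v) {d V z : PadicAlgCl 3}
    (hd : d = ev (ι i₀) (iota_sq' hi ι) (lam * (w ^ k * (1 + 3 * r)))) (hV : V ∈ Kl (ι i₀))
    (hz : U1 (ι i₀) z) (e : ev (ι i₀) (iota_sq' hi ι) (v * lam ^ g * (1 + 3 * q)) *
      (d ^ n * (1 + d - d ^ 2) ^ m) = V ^ 3 * z) :
    ∃ (n : ℕ) (b : ZMod 3), 3 ∣ g + 4 * n ∧
      (v * w ^ (k * n) = w ^ b.val ∨ v * w ^ (k * n) = -w ^ b.val) ∧
      nq (1 + 3 * q) + n * nq (1 + 3 * r) = k * b := by
  have hI := iota_sq' hi ι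
  obtain ⟨qu, hU, hqu⟩ := U_eq k r
  have hU' : 1 + d - d ^ 2 = ev (ι i₀) hI (w ^ 2 * (1 + 3 * qu)) := by
    rw [← hU, hd]
    simp only [map_sub, map_add, map_one, map_pow]
  rw [hU', hd, ← map_pow, ← map_pow, ← map_mul, ← map_mul] at e
  have dv : ∀ (x : Ei) (n : ℕ), (3 : Ei) ∣ (1 + 3 * x) ^ n - 1 := by
    intro x n
    have h4 := sub_dvd_pow_sub_pow (1 + 3 * x) 1 n
    rw [one_pow] at h4
    exact dvd_trans ⟨x, by ring⟩ h4
  obtain ⟨q', hq'⟩ : (3 : Ei) ∣ (1 + 3 * q) * (1 + 3 * r) ^ n * (1 + 3 * qu) ^ m - 1 := by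
    obtain ⟨x1, h1⟩ := dv r n
    obtain ⟨x2, h2⟩ := dv qu m
    have h1' : (1 + 3 * r) ^ n = 1 + 3 * x1 := by rw [← h1]; ring
    have h2' : (1 + 3 * qu) ^ m = 1 + 3 * x2 := by rw [← h2]; ring
    rw [h1', h2']
    exact ⟨q + x1 + x2 + 3 * (q * x1) + 3 * (q * x2) + 3 * (x1 * x2) + 9 * (q * x1 * x2),
      by ring⟩
  have hq2 : (1 + 3 * q) * (1 + 3 * r) ^ n * (1 + 3 * qu) ^ m = 1 + 3 * q' := by
    rw [← hq']; ring
  have hnq : nq (1 + 3 * q') = nq (1 + 3 * q) + n * nq (1 + 3 * r) + m * -(k : ZMod 3) := by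
    rw [← hq2, nq_mul (((cop3 q).mul_left (cop3 r).pow_left)) (cop3 qu).pow_left,
      nq_mul (cop3 q) (cop3 r).pow_left, nq_pow (cop3 r), nq_pow (cop3 qu), hqu]
  have ez : v * lam ^ g * (1 + 3 * q) * ((lam * (w ^ k * (1 + 3 * r))) ^ n *
      (w ^ 2 * (1 + 3 * qu)) ^ m) =
      (v * w ^ (k * n + 2 * m)) * lam ^ (g + n) * (1 + 3 * q') := by
    rw [← hq2, mul_pow, mul_pow, mul_pow, ← pow_mul, ← pow_mul, pow_add, pow_add]
    ring
  rw [ez] at e
  obtain ⟨t, ht, ht1, rfl⟩ := hz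
  have hltm : (1 + 2 * ι i₀) * t ∈ Kl (ι i₀) := mul_mem lam_mem ht
  have hlt1 := lt_le hI ht1
  obtain ⟨h1, h2⟩ := fin_of hi ι (hv.mul (w_unit.pow _)) hV hltm hlt1 e
  obtain ⟨g', hg'⟩ := h1
  have h5 : v * w ^ (k * n) = (v * w ^ (k * n + 2 * m)) * w ^ m := by
    have : (w : Ei) ^ (k * n + 2 * m) * w ^ m = w ^ (k * n) * (w ^ 3) ^ m := by
      rw [← pow_mul, ← pow_add, ← pow_add]
      congr 1
      ring
    rw [mul_assoc, this, w3, one_pow, mul_one]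
  refine ⟨n, (m : ZMod 3), by omega, ?_, ?_⟩
  · rw [h5, ← w_val]
    rcases h2 with h2 | h2 <;> rw [h2]
    · left; ring
    · right; ring
  · -- the condition of level two
    have hz : U1 (ι i₀) (1 + 3 * ((1 + 2 * ι i₀) * t)) := ⟨t, ht, ht1, rfl⟩
    obtain ⟨L, hL⟩ : ∃ L, L = ev (ι i₀) hI lam := ⟨_, rfl⟩
    have hLm : L ∈ Kl (ι i₀) := by rw [hL]; exact ev_mem hI _
    have hL0 : L ≠ 0 := by rw [hL]; exact ev_ne hI prime_lam.ne_zero
    obtain ⟨ε, hε, hεv⟩ : ∃ ε : PadicAlgCl 3, (ε = 1 ∨ ε = -1) ∧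
        ev (ι i₀) hI (v * w ^ (k * n + 2 * m)) = ε := by
      rcases h2 with h2 | h2
      · exact ⟨1, Or.inl rfl, by rw [h2, map_one]⟩
      · exact ⟨-1, Or.inr rfl, by rw [h2, map_neg, map_one]⟩
    have hq1 : ‖ev (ι i₀) hI (1 + 3 * q')‖ = 1 := by
      rw [map_add, map_one, map_mul, map_ofNat]
      exact norm_one_add (ev_le hI q')
    have hεn : ‖ε‖ = 1 := by
      rcases hε with rfl | rfl
      · exact norm_one
      · rw [norm_neg, norm_one]
    have e2 : (V / L ^ g') ^ 3 * (1 + 3 * ((1 + 2 * ι i₀) * t)) =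
        ε * ev (ι i₀) hI (1 + 3 * q') := by
      have e3 : ε * L ^ (g + n) * ev (ι i₀) hI (1 + 3 * q') =
          V ^ 3 * (1 + 3 * ((1 + 2 * ι i₀) * t)) := by
        rw [← e, map_mul, map_mul, hεv, map_pow, hL]
      rw [hg', mul_comm 3, pow_mul] at e3
      have hL3 : (L ^ g') ^ 3 ≠ 0 := pow_ne_zero 3 (pow_ne_zero _ hL0)
      rw [div_pow, div_mul_eq_mul_div, ← e3, div_eq_iff hL3]
      ring
    have hVn : ‖V / L ^ g'‖ = 1 := by
      have h6 := congrArg norm e2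
      rw [norm_mul, norm_mul, norm_pow, hεn, hq1, hz.norm hI, mul_one, mul_one] at h6
      exact (pow_eq_one_iff_of_nonneg (norm_nonneg _) three_ne_zero).1 h6
    obtain ⟨ε', hε', -, hz'⟩ := cube_unit hI (div_mem hV (pow_mem hLm g')) hVn
    have hz2 := hz'.mul hI hz
    have e4 : ε' * (V / L ^ g') ^ 3 * (1 + 3 * ((1 + 2 * ι i₀) * t)) =
        (ε' * ε) * ev (ι i₀) hI (1 + 3 * q') := by
      rw [mul_assoc, e2, mul_assoc]
    rw [e4] at hz2
    obtain ⟨t', ht', ht1', e5⟩ := hz2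
    have hlt1' := lt_le hI ht1'
    have h3n : ‖(3 : PadicAlgCl 3)‖ < 1 := by rw [norm_three']; norm_num
    have hεε : ε' * ε = 1 := by
      have h7 : ε' * ε = 1 ∨ ε' * ε = -1 := by
        rcases hε with rfl | rfl <;> rcases hε' with rfl | rfl <;> simp
      rcases h7 with h7 | h7
      · exact h7
      · exfalso
        rw [h7, map_add, map_one, map_mul, map_ofNat] at e5
        have e6 : (1 : PadicAlgCl 3) = 3 * (1 + ((1 + 2 * ι i₀) * t') +
            ev (ι i₀) hI q') := by linear_combination e5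
        have h8 : ‖(3 : PadicAlgCl 3) * (1 + ((1 + 2 * ι i₀) * t') + ev (ι i₀) hI q')‖ < 1 := by
          rw [mul_comm]
          exact mul_lt (add_le (add_le norm_one.le hlt1') (ev_le hI q')) h3n
        rw [← e6, norm_one] at h8
        exact lt_irrefl _ h8
    rw [hεε, one_mul, map_add, map_one, map_mul, map_ofNat] at e5
    have e6 : ev (ι i₀) hI q' = (1 + 2 * ι i₀) * t' := by
      have h3 : (3 : PadicAlgCl 3) ≠ 0 := three_ne_zero
      exact mul_left_cancel₀ h3 (by linear_combination e5)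
    have h9 : ‖ev (ι i₀) hI q'‖ < 1 := by
      rw [e6, mul_comm]
      exact mul_lt ht1' (norm_lam_lt hI)
    obtain ⟨q2, hq2'⟩ := (dvd_iff hI prime_lam (lam_lt hI) q').2 h9
    have h10 : nq (1 + 3 * q') = 0 := by
      rw [← nq_unit isUnit_one]
      refine nq_congr (t := q2) ?_
      show _ = 3 * lam * _
      rw [hq2']
      ring
    rw [hnq] at h10
    linear_combination h10

theorem core9 {k : ℕ} {r : Ei} (hT : Tw hi (9 * (w ^ k * (1 + 3 * r))) u a)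
    {v q : Ei} {g : ℕ} (hv : IsUnit v) (hK : Kc hi (v * lam ^ g * (1 + 3 * q)) h)
    (hS : St1 hi ι a h R) :
    ∃ (n : ℕ) (b : ZMod 3), 3 ∣ g + 4 * n ∧
      (v * w ^ (k * n) = w ^ b.val ∨ v * w ^ (k * n) = -w ^ b.val) ∧
      nq (1 + 3 * q) + n * nq (1 + 3 * r) = k * b := by
  have hI := iota_sq' hi ι
  have hI3 : ι i₀ ^ 3 = 1 := by linear_combination (ι i₀ - 1) * hI
  obtain ⟨L, hL⟩ : ∃ L, L = 1 + 2 * ι i₀ := ⟨_, rfl⟩
  have hLm : L ∈ Kl (ι i₀) := by rw [hL]; exact lam_mem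
  have hL0 : L ≠ 0 := by rw [hL]; exact lam_ne0 hI
  obtain ⟨d, hd⟩ : ∃ d, d = ev (ι i₀) hI (lam * (w ^ k * (1 + 3 * r))) := ⟨_, rfl⟩
  obtain ⟨dD, hdD⟩ : ∃ dD, dD = ev (ι i₀) hI (9 * (w ^ k * (1 + 3 * r))) := ⟨_, rfl⟩
  have hdm : d ∈ Kl (ι i₀) := by rw [hd]; exact ev_mem hI _
  have hdDm : dD ∈ Kl (ι i₀) := by rw [hdD]; exact ev_mem hI _
  have hdd : dD = L ^ 3 * d := by
    have e9 : (9 * (w ^ k * (1 + 3 * r)) : Ei) = lam ^ 3 * (lam * (w ^ k * (1 + 3 * r))) := by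
      have : (9 : Ei) = lam ^ 3 * lam := by decide
      rw [this]
      ring
    rw [hdD, e9, map_mul, ← hd, map_pow, ev_lam, ← hL]
  have hun : ‖ev (ι i₀) hI w‖ = 1 := by
    refine le_antisymm (ev_le hI w) ?_
    obtain ⟨u', hu'⟩ := w_unit.exists_right_inv
    have h1 : ‖ev (ι i₀) hI w‖ * ‖ev (ι i₀) hI u'‖ = 1 := by
      rw [← norm_mul, ← map_mul, hu', map_one, norm_one]
    by_contra hcon
    push Not at hcon
    have h2 := ev_le hI u'
    nlinarith [norm_nonneg (ev (ι i₀) hI w), norm_nonneg (ev (ι i₀) hI u')]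
  have hd1 : ‖d‖ = ‖1 + 2 * ι i₀‖ := by
    rw [hd, map_mul, map_mul, map_pow, norm_mul, norm_mul, norm_pow, hun, one_pow,
      one_mul, map_add, map_one, map_mul, map_ofNat, norm_one_add (ev_le hI r), ev_lam,
      mul_one]
  have hd0 : d ≠ 0 := by
    rintro rfl
    rw [norm_zero] at hd1
    exact (lam_pos hI).ne hd1
  have hdD0 : dD ≠ 0 := by rw [hdd]; exact mul_ne_zero (pow_ne_zero 3 hL0) hd0
  have hU3 : ι u ^ 3 = dD := by
    rw [← map_pow, hT.cube, iota_ev' hi ι, hdD]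
  have hU0 : ι u ≠ 0 := by
    intro h0
    rw [h0, zero_pow three_ne_zero] at hU3
    exact hdD0 hU3.symm
  -- the cube root
  obtain ⟨s, hs⟩ := IsAlgClosed.exists_pow_nat_eq (ev i₀ hi (v * lam ^ g * (1 + 3 * q)))
    (n := 3) (by norm_num)
  have hZ : ι s ^ 3 = ev (ι i₀) hI (v * lam ^ g * (1 + 3 * q)) := by
    rw [← map_pow, hs, iota_ev' hi ι]
  have hts : ∀ (τ : Au 3) (σ : GK i₀), Cmp ι τ σ → τ (ι s) = ι i₀ ^ (h σ).val * ι s := by
    intro τ σ hc
    rw [hc, hK s hs σ, map_mul, map_pow]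
  have hz0 : v * lam ^ g * (1 + 3 * q) ≠ 0 := by
    refine mul_ne_zero (mul_ne_zero hv.ne_zero (pow_ne_zero _ prime_lam.ne_zero)) ?_
    intro h0
    have h1 : ev (ι i₀) hI (1 + 3 * q) = 0 := by rw [h0, map_zero]
    rw [map_add, map_one, map_mul, map_ofNat] at h1
    exact one_add_ne (ev_le hI q) h1
  have hZ0 : ι s ^ 3 ≠ 0 := by
    rw [hZ]
    exact ev_ne hI hz0
  have hs0 : ι s ≠ 0 := fun h0 => hZ0 (by rw [h0, zero_pow three_ne_zero])
  have hZm : ι s ^ 3 ∈ Kl (ι i₀) := by rw [hZ]; exact ev_mem hI _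
  by_cases hQ0 : R - im (isE _) hI R = 0
  · -- `R` is a multiple of `T`
    obtain ⟨c, hc⟩ := ker_tt hI hQ0
    have hm : ι s ∈ Kl (ι i₀) := by
      intro τ hτ
      obtain ⟨σ, hcm⟩ := exists_cmp ι τ hτ
      have h1 := hS τ σ hcm
      rw [hc, pm_tt, jj_tt, sub_self] at h1
      have h2 := tt_eq_zero.1 h1.symm
      rw [hts τ σ hcm, h2, ZMod.val_zero, pow_zero, one_mul]
    refine fin9 (q := q) (r := r) (k := k) (n := 0) (m := 0) hi ι hv hd hm U1.one ?_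
    rw [← hZ]
    ring
  · obtain ⟨x, y, hn, hR⟩ : ∃ x y, ∃ hn : (W0.baseChange (PadicAlgCl 3)).toAffine.Nonsingular x y,
        R = .some x y hn := by
      rcases R with _ | ⟨x, y, hn⟩
      · exfalso
        apply hQ0
        show (0 : Pt (PadicAlgCl 3)) - im (isE _) hI 0 = 0
        rw [map_zero, sub_zero]
      · exact ⟨x, y, hn, rfl⟩
    have he := ((isE _).eqn x y).1 hn.1
    have hx : x ≠ 0 := by
      intro h0
      apply hQ0
      rw [hR, im_some, sub_eq_zero, Affine.Point.some.injEq]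
      exact ⟨by rw [h0, mul_zero], rfl⟩
    obtain ⟨XQ, hnQ, eQ⟩ : ∃ XQ, ∃ hnQ : (W0.baseChange (PadicAlgCl 3)).toAffine.Nonsingular XQ
        (gg (ι i₀) R ^ 3), R - im (isE _) hI R = .some XQ _ hnQ := by
      rw [hR]
      obtain ⟨XQ, hnQ, eQ, -⟩ := one_sub_im (isE _) hI hn hx
      exact ⟨XQ, hnQ, eQ⟩
    by_cases hG : gg (ι i₀) R = 0
    · -- `R - J R = T`
      have hlam := lam_ne (isE (PadicAlgCl 3)) hI
      have hy : y = ι i₀ ^ 2 := by
        rw [hR, gg_some, div_eq_zero_iff] at hG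
        rcases hG with h1 | h1
        · exact sub_eq_zero.1 h1
        · exact absurd h1 (mul_ne_zero hlam hx)
      have h0 := (isE (PadicAlgCl 3)).neg_nons hn
      have hR' : -R = .some x (-y - 1) h0 := by
        rw [hR]
        exact (isE _).neg_eq hn h0
      have hgg : gg (ι i₀) (-R) = 1 / x := by
        rw [hR', gg_some, hy, div_eq_div_iff (mul_ne_zero hlam hx) hx]
        linear_combination (-2 * x) * hI
      have hx3 : x ^ 3 = -1 := by
        rw [← he, hy]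
        linear_combination (ι i₀ ^ 2 - ι i₀ + 1) * hI
      have hW3 : (ι u * gg (ι i₀) (-R)) ^ 3 = -dD := by
        rw [hgg, mul_pow, hU3, div_pow, hx3, one_pow]
        ring
      have hm : ι s / (ι u * gg (ι i₀) (-R)) ∈ Kl (ι i₀) := by
        intro τ hτ
        obtain ⟨σ, hcm⟩ := exists_cmp ι τ hτ
        rw [map_div₀, hts τ σ hcm, tau_g hT (st1_neg hS) hR' hx hcm]
        have h1 := pow_three hI (-h σ)
        rw [neg_neg] at h1
        rw [← h1, mul_div_mul_left]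
        exact pow_ne_zero _ (I_ne (isE (PadicAlgCl 3)) hI)
      refine fin9 (q := q) (r := r) (k := k) (n := 2) (m := 0) hi ι hv hd
        (V := -(ι s / (ι u * gg (ι i₀) (-R)) * (d * L))) (neg_mem (mul_mem hm
          (mul_mem hdm hLm))) U1.one ?_
      rw [← hZ, neg_pow, mul_pow, div_pow, hW3, hdd]
      field_simp
    · -- the general case
      have hW0 : ι u * gg (ι i₀) R ≠ 0 := mul_ne_zero hU0 hG
      have hm : ι s * (ι u * gg (ι i₀) R) ∈ Kl (ι i₀) := by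
        intro τ hτ
        obtain ⟨σ, hcm⟩ := exists_cmp ι τ hτ
        rw [map_mul, hts τ σ hcm, tau_g hT hS hR hx hcm]
        have h1 := pow_cancel hI (h σ)
        linear_combination (ι s * (ι u * gg (ι i₀) R)) * h1
      obtain ⟨W, hW⟩ : ∃ W, W = ι u * gg (ι i₀) R := ⟨_, rfl⟩
      rw [← hW] at hm hW0
      have hYm : W ^ 3 ∈ Kl (ι i₀) := by
        have e : W ^ 3 = (ι s * W) ^ 3 / ι s ^ 3 := by
          rw [mul_pow, mul_div_cancel_left₀ _ hZ0]
        rw [e]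
        exact div_mem (pow_mem hm 3) hZm
      have hXm : ι u ^ 2 * XQ ∈ Kl (ι i₀) := tau_X hT hS eQ
      have heq := ((isE _).eqn _ _).1 hnQ.1
      have heY : (W ^ 3) ^ 2 + dD * W ^ 3 = (ι u ^ 2 * XQ) ^ 3 := by
        rw [hW, ← hU3]
        linear_combination (ι u ^ 6) * heq
      obtain ⟨n, m, V, hV, hV0, z, hz, eY⟩ := ord9 hI (d := d) (X := ι u ^ 2 * XQ / L ^ 2)
        (Y := W ^ 3 / L ^ 3) hdm hd1 (div_mem hXm (pow_mem hLm 2))
        (div_mem hYm (pow_mem hLm 3)) (div_ne_zero (pow_ne_zero 3 hW0) (pow_ne_zero 3 hL0))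
        (by
          rw [div_pow, div_pow (ι u ^ 2 * XQ), ← heY, hdd]
          field_simp)
      refine fin9 (q := q) (r := r) (k := k) (n := n) (m := m) hi ι hv hd
        (V := ι s * W * (V / L)) (mul_mem hm (div_mem hV hLm)) hz ?_
      rw [← hZ, eY]
      field_simp

end final

/-- **L9-LOC3N** -/
theorem loc3n : Pool.Agent.D0H43.L9.S_LOC3N := by
  intro i₀ hi k r u a hT h v q g hv hK hF ι R hS
  exact core9 hT hv hK hS

end Pool.Agent.D0H92.L9
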