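import Pool.Agent.Y180.CT.Loc3

/-!
# Project L9 (helper92): the ordinates of the points of `y ^ 2 + d y = x ^ 3` over `ℚ₃(ω)`, `d` a
uniformizer, modulo cubes and units which are `1` modulo `(√-3) ^ 3`
-/

set_option autoImplicit false
set_option linter.unusedVariables false

namespace Pool.Agent.D0H92.L9

open Pool.Agent.Y692.QS
open Pool.Agent.Y715.T.Gi Pool.Agent.Y715.T.Nr Pool.Agent.Y715.T.Df Pool.Agent.Y715.T.Ell
open Pool.Agent.Y715.T.Red Pool.Agent.Y715.T.Thr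
open Pool.Agent.Y703.CT
open Pool.Agent.Y180.CT

open scoped Classical

variable {I : PadicAlgCl 3}

/-- units which are `1` modulo `(√-3) ^ 3` -/
def U1 (I z : PadicAlgCl 3) : Prop := ∃ t ∈ Kl I, ‖t‖ ≤ 1 ∧ z = 1 + 3 * ((1 + 2 * I) * t)

lemma lam_ne0 (hI : I ^ 2 + I + 1 = 0) : 1 + 2 * I ≠ 0 := norm_pos_iff.1 (lam_pos hI)

lemma lam_sq' (hI : I ^ 2 + I + 1 = 0) : (1 + 2 * I) ^ 2 = -3 := by linear_combination 4 * hI

lemma lt_le (hI : I ^ 2 + I + 1 = 0) {t : PadicAlgCl 3} (ht : ‖t‖ ≤ 1) :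
    ‖(1 + 2 * I) * t‖ ≤ 1 := mul_le (norm_lam_lt hI).le ht

lemma U1.norm (hI : I ^ 2 + I + 1 = 0) {z : PadicAlgCl 3} (h : U1 I z) : ‖z‖ = 1 := by
  obtain ⟨t, -, ht1, rfl⟩ := h
  exact norm_one_add (lt_le hI ht1)

lemma U1.ne (hI : I ^ 2 + I + 1 = 0) {z : PadicAlgCl 3} (h : U1 I z) : z ≠ 0 := by
  intro h0
  have := h.norm hI
  rw [h0, norm_zero] at this
  exact zero_ne_one this

lemma U1.mem {z : PadicAlgCl 3} (h : U1 I z) : z ∈ Kl I := by
  obtain ⟨t, ht, -, rfl⟩ := h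
  exact add_mem (one_mem _) (mul_mem three_memK (mul_mem lam_mem ht))

lemma U1.one : U1 I 1 := ⟨0, zero_mem _, by rw [norm_zero]; exact zero_le_one, by ring⟩

lemma norm_3L (hI : I ^ 2 + I + 1 = 0) : ‖(3 : PadicAlgCl 3) * (1 + 2 * I)‖ = ‖1 + 2 * I‖ ^ 3 := by
  have e : (3 : PadicAlgCl 3) * (1 + 2 * I) = -(1 + 2 * I) ^ 3 := by
    linear_combination (1 + 2 * I) * lam_sq' hI
  rw [e, norm_neg, norm_pow]

/-- an element of `Kl I` near to `1` is in `U1` -/
lemma U1.of (hI : I ^ 2 + I + 1 = 0) {z : PadicAlgCl 3} (hz : z ∈ Kl I)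
    (h : ‖z - 1‖ ≤ ‖(3 : PadicAlgCl 3) * (1 + 2 * I)‖) : U1 I z := by
  have h3 : (3 : PadicAlgCl 3) ≠ 0 := three_ne_zero
  have hl := lam_ne0 hI
  have h3l : (3 : PadicAlgCl 3) * (1 + 2 * I) ≠ 0 := mul_ne_zero h3 hl
  refine ⟨(z - 1) / (3 * (1 + 2 * I)),
    div_mem (sub_mem hz (one_mem _)) (mul_mem three_memK lam_mem), ?_, ?_⟩
  · rw [norm_div]
    exact (div_le_one (norm_pos_iff.2 h3l)).2 h
  · rw [← mul_assoc, mul_div_cancel₀ _ h3l]
    ring

lemma U1.near (hI : I ^ 2 + I + 1 = 0) {z : PadicAlgCl 3} (h : U1 I z) :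
    ‖z - 1‖ ≤ ‖(3 : PadicAlgCl 3) * (1 + 2 * I)‖ := by
  obtain ⟨t, -, ht1, rfl⟩ := h
  have e : 1 + 3 * ((1 + 2 * I) * t) - 1 = (3 * (1 + 2 * I)) * t := by ring
  rw [e, norm_mul]
  exact mul_le_of_le_one_right (norm_nonneg _) ht1

lemma U1.mul (hI : I ^ 2 + I + 1 = 0) {z z' : PadicAlgCl 3} (h : U1 I z) (h' : U1 I z') :
    U1 I (z * z') := by
  refine U1.of hI (mul_mem h.mem h'.mem) ?_
  have e : z * z' - 1 = z * (z' - 1) + (z - 1) := by ring
  rw [e]
  refine add_le ?_ (h.near hI)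
  rw [norm_mul, h.norm hI, one_mul]
  exact h'.near hI

lemma U1.inv (hI : I ^ 2 + I + 1 = 0) {z : PadicAlgCl 3} (h : U1 I z) : U1 I z⁻¹ := by
  have h0 := h.ne hI
  refine U1.of hI (inv_mem h.mem) ?_
  have e : z⁻¹ - 1 = z⁻¹ * -(z - 1) := by field_simp; ring
  rw [e, norm_mul, norm_inv, h.norm hI, inv_one, one_mul, norm_neg]
  exact h.near hI

/-- two units which are congruent modulo `(√-3) ^ 3` differ by an element of `U1` -/
lemma U1.div (hI : I ^ 2 + I + 1 = 0) {a b : PadicAlgCl 3} (ha : a ∈ Kl I) (hb : b ∈ Kl I)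
    (hb1 : ‖b‖ = 1) (h : ‖a - b‖ ≤ ‖(3 : PadicAlgCl 3) * (1 + 2 * I)‖) : U1 I (a / b) := by
  have hb0 : b ≠ 0 := by
    rintro rfl
    rw [norm_zero] at hb1
    exact zero_ne_one hb1
  refine U1.of hI (div_mem ha hb) ?_
  have e : a / b - 1 = (a - b) / b := by field_simp
  rw [e, norm_div, hb1, div_one]
  exact h

/-- cubes of units -/
lemma cube_unit (hI : I ^ 2 + I + 1 = 0) {V : PadicAlgCl 3} (hV : V ∈ Kl I) (hV1 : ‖V‖ = 1) :
    ∃ ε : PadicAlgCl 3, (ε = 1 ∨ ε = -1) ∧ ‖V - ε‖ < 1 ∧ U1 I (ε * V ^ 3) := by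
  obtain ⟨ε, hε, h1⟩ : ∃ ε : PadicAlgCl 3, (ε = 1 ∨ ε = -1) ∧ ‖V - ε‖ < 1 := by
    rcases residue3 hI hV1.le hV with h | h | h
    · exact absurd hV1 h.ne
    · exact ⟨1, Or.inl rfl, h⟩
    · exact ⟨-1, Or.inr rfl, by rwa [sub_neg_eq_add]⟩
  refine ⟨ε, hε, h1, ?_⟩
  have hεm : ε ∈ Kl I := by
    rcases hε with rfl | rfl
    · exact one_mem _
    · exact neg_mem (one_mem _)
  have hεε : ε * ε = 1 := by rcases hε with rfl | rfl <;> ring
  have hεn : ‖ε‖ = 1 := by
    rcases hε with rfl | rfl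
    · exact norm_one
    · rw [norm_neg, norm_one]
  obtain ⟨x, hx, hx1, ex⟩ := lam_div hI (mul_mem hεm (sub_mem hV hεm))
    (by rw [norm_mul, hεn, one_mul]; exact h1)
  obtain ⟨m, hm⟩ : ∃ m : PadicAlgCl 3, m = 1 + 2 * I := ⟨_, rfl⟩
  have hll := lam_sq' hI
  have hml : m ∈ Kl I := by rw [hm]; exact lam_mem
  have hm1 : ‖m‖ ≤ 1 := by rw [hm]; exact (norm_lam_lt hI).le
  rw [← hm] at ex hll
  -- `x - x ^ 3` is small
  have h2 : ‖x - x ^ 3‖ < 1 := by
    rcases residue3 hI hx1 hx with h | h | h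
    · have e : x - x ^ 3 = (1 - x ^ 2) * x := by ring
      rw [e]
      exact mul_lt (sub_le (by rw [norm_one]) (pow_le 2 hx1)) h
    · have e : x - x ^ 3 = (-(x + x ^ 2)) * (x - 1) := by ring
      rw [e]
      exact mul_lt (by rw [norm_neg]; exact add_le hx1 (pow_le 2 hx1)) h
    · have e : x - x ^ 3 = (x - x ^ 2) * (x + 1) := by ring
      rw [e]
      exact mul_lt (sub_le hx1 (pow_le 2 hx1)) h
  refine ⟨m * x ^ 2 + (x - x ^ 3), add_mem (mul_mem hml (pow_mem hx 2))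
    (sub_mem hx (pow_mem hx 3)), add_le (mul_le hm1 (pow_le 2 hx1)) h2.le, ?_⟩
  rw [← hm]
  have eV : V = ε * (1 + m * x) := by
    linear_combination ε * ex - (V - ε) * hεε
  have e1 : ε * V ^ 3 = (1 + m * x) ^ 3 := by
    rw [eV]
    linear_combination (1 + m * x) ^ 3 * (ε * ε + 1) * hεε
  rw [e1]
  linear_combination (m * x ^ 3) * hll

lemma U_le (hI : I ^ 2 + I + 1 = 0) {d : PadicAlgCl 3} (hd1 : ‖d‖ = ‖1 + 2 * I‖) :
    ‖(d - d ^ 2)‖ < 1 := by
  have h1 : ‖d‖ < 1 := by rw [hd1]; exact norm_lam_lt hI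
  have e : d - d ^ 2 = (1 - d) * d := by ring
  rw [e]
  exact mul_lt (sub_le (by rw [norm_one]) h1.le) h1

lemma U_norm (hI : I ^ 2 + I + 1 = 0) {d : PadicAlgCl 3} (hd1 : ‖d‖ = ‖1 + 2 * I‖) :
    ‖1 + d - d ^ 2‖ = 1 := by
  have e : 1 + d - d ^ 2 = 1 + (d - d ^ 2) := by ring
  rw [e, eq_of_lt, norm_one]
  rw [norm_one]
  exact U_le hI hd1

/-- the case of an ordinate which is not in the maximal ideal -/
theorem ordA (hI : I ^ 2 + I + 1 = 0) {d X Y : PadicAlgCl 3} (hd : d ∈ Kl I)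
    (hd1 : ‖d‖ = ‖1 + 2 * I‖) (hX : X ∈ Kl I) (hY : Y ∈ Kl I) (hY1 : 1 ≤ ‖Y‖)
    (he : Y ^ 2 + d * Y = X ^ 3) :
    ∃ m : ℕ, ∃ V ∈ Kl I, V ≠ 0 ∧ ∃ z, U1 I z ∧ (1 + d - d ^ 2) ^ m = Y * (V ^ 3 * z) := by
  have hY0 : Y ≠ 0 := by
    rintro rfl
    rw [norm_zero] at hY1
    linarith
  have hdl : ‖d‖ < 1 := by rw [hd1]; exact norm_lam_lt hI
  have hl0 := lam_ne0 hI
  have hlp := lam_pos hI
  have h3 : (3 : PadicAlgCl 3) ≠ 0 := three_ne_zero
  have h3l : (3 : PadicAlgCl 3) * (1 + 2 * I) ≠ 0 := mul_ne_zero h3 hl0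
  have hYd : ‖Y + d‖ = ‖Y‖ := eq_of_lt (lt_of_lt_of_le hdl hY1)
  have he' : Y * (Y + d) = X ^ 3 := by rw [← he]; ring
  have hnX : ‖Y‖ ^ 2 = ‖X‖ ^ 3 := by rw [← norm_pow X, ← he', norm_mul, hYd, pow_two]
  have hX0 : X ≠ 0 := by
    rintro rfl
    rw [norm_zero, zero_pow three_ne_zero] at hnX
    exact hY0 (norm_eq_zero.1 (pow_eq_zero_iff two_ne_zero |>.1 hnX))
  have hX3 : X ^ 3 ≠ 0 := pow_ne_zero 3 hX0
  rcases hY1.lt_or_eq with h1 | h1
  · -- large ordinates
    obtain ⟨m, hm⟩ := cube_val' hI hY hX hY0 hnX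
    have h4 := ge_three hm h1
    have hz : U1 I (1 + d / Y) := by
      refine U1.of hI (add_mem (one_mem _) (div_mem hd hY)) ?_
      have e : 1 + d / Y - 1 = d / Y := by ring
      rw [e, norm_div, hd1, norm_mul, norm_three', div_le_iff₀ (by linarith)]
      nlinarith
    refine ⟨0, X / Y, div_mem hX hY, div_ne_zero hX0 hY0, (1 + d / Y)⁻¹, hz.inv hI, ?_⟩
    have hz0 : 1 + d / Y ≠ 0 := hz.ne hI
    have e1 : Y * (X / Y) ^ 3 = 1 + d / Y := by
      rw [div_pow, ← he]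
      field_simp
    rw [pow_zero, ← mul_assoc, e1, mul_inv_cancel₀ hz0]
  · -- units
    have hX1 : ‖X‖ = 1 := by
      have h2 : ‖X‖ ^ 3 = 1 := by rw [← hnX, ← h1, one_pow]
      exact (pow_eq_one_iff_of_nonneg (norm_nonneg _) three_ne_zero).1 h2
    obtain ⟨ε, hε, hε1, hz⟩ := cube_unit hI (div_mem hY hX)
      (by rw [norm_div, ← h1, hX1, div_one])
    obtain ⟨z₁, hz₁⟩ : ∃ z₁, z₁ = ε * (Y / X) ^ 3 := ⟨_, rfl⟩
    rw [← hz₁] at hz
    have hεε : ε * ε = 1 := by rcases hε with rfl | rfl <;> ring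
    have hεm : ε ∈ Kl I := by
      rcases hε with rfl | rfl
      · exact one_mem _
      · exact neg_mem (one_mem _)
    have hεn : ‖ε‖ = 1 := by
      rcases hε with rfl | rfl
      · exact norm_one
      · rw [norm_neg, norm_one]
    -- the quadratic equation
    have q1 : Y ^ 2 = ε * z₁ * (Y + d) := by
      rw [hz₁, div_pow, ← he']
      have hYd0 : Y + d ≠ 0 := by
        intro h0
        rw [h0, norm_zero] at hYd
        rw [← hYd] at hY1
        linarith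
      field_simp
      linear_combination (-1 : PadicAlgCl 3) * hεε
    obtain ⟨Z, hZ⟩ : ∃ Z, Z = ε * Y := ⟨_, rfl⟩
    have hZm : Z ∈ Kl I := by rw [hZ]; exact mul_mem hεm hY
    have hZn : ‖Z‖ = 1 := by rw [hZ, norm_mul, hεn, one_mul, ← h1]
    have eY : Y = ε * Z := by rw [hZ]; linear_combination (-Y) * hεε
    -- `Z` is near to `1`
    have hz1 : ‖z₁ - 1‖ < 1 := by
      refine lt_of_le_of_lt (hz.near hI) ?_
      rw [norm_mul, norm_three']
      have := norm_lam_lt hI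
      nlinarith
    have hZ2 : Z ^ 2 = z₁ * (Z + ε * d) := by
      rw [hZ]
      linear_combination (ε ^ 2) * q1 + (z₁ * ε * Y + z₁ * ε * d) * hεε
    have hZ1 : ‖Z - 1‖ < 1 := by
      have e : Z * (Z - 1) = (z₁ - 1) * Z + (z₁ * ε) * d := by linear_combination hZ2
      have h5 : ‖Z * (Z - 1)‖ < 1 := by
        rw [e]
        refine add_lt ?_ (mul_lt ?_ hdl)
        · rw [mul_comm]
          exact mul_lt hZn.le hz1
        · rw [norm_mul, hεn, mul_one]
          exact (hz.norm hI).le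
      rwa [norm_mul, hZn, one_mul] at h5
    have hL3 : ‖d‖ ^ 3 = ‖(3 : PadicAlgCl 3) * (1 + 2 * I)‖ := by rw [norm_3L hI, hd1]
    have h3d : ‖3 * d‖ = ‖(3 : PadicAlgCl 3) * (1 + 2 * I)‖ := by
      rw [norm_mul, norm_mul, hd1]
    have hUn := U_norm hI hd1
    have hUl := U_le hI hd1
    have hdd : ‖(2 : PadicAlgCl 3)‖ ≤ 1 := two_le
    have hint : ∀ n : ℕ, ‖(n : PadicAlgCl 3)‖ ≤ 1 := fun n => int_le n
    rcases hε with rfl | rfl
    · -- `Y` is near to `1`
      have hZY : Z = Y := by rw [hZ, one_mul]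
      rw [hZY] at hZ1 hZ2 hZn hZm
      have k1 : ‖(Y - (1 + d - d ^ 2)) * (Y + (1 + d - d ^ 2) - 1)‖ ≤
          ‖(3 : PadicAlgCl 3) * (1 + 2 * I)‖ := by
        have e : (Y - (1 + d - d ^ 2)) * (Y + (1 + d - d ^ 2) - 1) =
            (Y + d) * (z₁ - 1) + (2 - d) * d ^ 3 := by
          linear_combination hZ2
        rw [e]
        refine add_le ?_ ?_
        · rw [norm_mul, hYd, hZn, one_mul]
          exact hz.near hI
        · rw [norm_mul, norm_pow, hL3]
          exact mul_le_of_le_one_left (norm_nonneg _) (sub_le hdd hdl.le)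
      have k2 : ‖Y + (1 + d - d ^ 2) - 1‖ = 1 := by
        have e : Y + (1 + d - d ^ 2) - 1 = 1 + ((Y - 1) + (d - d ^ 2)) := by ring
        rw [e, eq_of_lt, norm_one]
        rw [norm_one]
        exact add_lt hZ1 hUl
      rw [norm_mul, k2, mul_one] at k1
      refine ⟨1, 1, one_mem _, one_ne_zero, (1 + d - d ^ 2) / Y, ?_, ?_⟩
      · refine U1.div hI (sub_mem (add_mem (one_mem _) hd) (pow_mem hd 2)) hY hZn ?_
        rw [← norm_neg, neg_sub]
        exact k1
      · rw [pow_one, one_pow, one_mul, mul_div_cancel₀ _ hY0]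
    · -- `Y` is near to `-1`
      have hdl' := hdl.le
      have hZn' := hZn.le
      obtain ⟨Q, hQ⟩ : ∃ Q, Q = (1 + d - d ^ 2) ^ 2 := ⟨_, rfl⟩
      have hQm : Q ∈ Kl I := by
        rw [hQ]
        exact pow_mem (sub_mem (add_mem (one_mem _) hd) (pow_mem hd 2)) 2
      have hQ1 : ‖Q - 1‖ < 1 := by
        have e : Q - 1 = (2 - d - 2 * d ^ 2 + d ^ 3) * d := by rw [hQ]; ring
        rw [e]
        refine mul_lt ?_ hdl
        repeat' first
          | assumption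
          | exact norm_one.le
          | exact two_le
          | exact three_le
          | refine Pool.Agent.Y715.T.Red.add_le ?_ ?_
          | refine Pool.Agent.Y715.T.Red.sub_le ?_ ?_
          | refine Pool.Agent.Y715.T.Red.mul_le ?_ ?_
          | refine Pool.Agent.Y715.T.Red.pow_le _ ?_
      have k1 : ‖(Z - Q) * (Z + Q - 1)‖ ≤ ‖(3 : PadicAlgCl 3) * (1 + 2 * I)‖ := by
        have e : (Z - Q) * (Z + Q - 1) = (Z - d) * (z₁ - 1) -
            ((1 + d - 2 * d ^ 2 - 2 * d ^ 3) * (3 * d) +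
              (2 * 2 * 2 * d ^ 2 + 2 * d ^ 3 - 2 * 2 * d ^ 4 + d ^ 5) * d ^ 3) := by
          rw [hQ]
          linear_combination hZ2
        rw [e]
        refine sub_le ?_ (add_le ?_ ?_)
        · rw [norm_mul]
          have h5 : ‖Z - d‖ ≤ 1 := by
            repeat' first
              | assumption
              | exact norm_one.le
              | exact two_le
              | exact three_le
              | refine Pool.Agent.Y715.T.Red.add_le ?_ ?_
              | refine Pool.Agent.Y715.T.Red.sub_le ?_ ?_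
              | refine Pool.Agent.Y715.T.Red.mul_le ?_ ?_
              | refine Pool.Agent.Y715.T.Red.pow_le _ ?_
          exact (mul_le_of_le_one_left (norm_nonneg _) h5).trans (hz.near hI)
        · rw [norm_mul, h3d]
          refine mul_le_of_le_one_left (norm_nonneg _) ?_
          repeat' first
            | assumption
            | exact norm_one.le
            | exact two_le
            | exact three_le
            | refine Pool.Agent.Y715.T.Red.add_le ?_ ?_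
            | refine Pool.Agent.Y715.T.Red.sub_le ?_ ?_
            | refine Pool.Agent.Y715.T.Red.mul_le ?_ ?_
            | refine Pool.Agent.Y715.T.Red.pow_le _ ?_
        · rw [norm_mul, norm_pow, hL3]
          refine mul_le_of_le_one_left (norm_nonneg _) ?_
          repeat' first
            | assumption
            | exact norm_one.le
            | exact two_le
            | exact three_le
            | refine Pool.Agent.Y715.T.Red.add_le ?_ ?_
            | refine Pool.Agent.Y715.T.Red.sub_le ?_ ?_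
            | refine Pool.Agent.Y715.T.Red.mul_le ?_ ?_
            | refine Pool.Agent.Y715.T.Red.pow_le _ ?_
      have k2 : ‖Z + Q - 1‖ = 1 := by
        have e : Z + Q - 1 = 1 + ((Z - 1) + (Q - 1)) := by ring
        rw [e, eq_of_lt, norm_one]
        rw [norm_one]
        exact add_lt hZ1 hQ1
      rw [norm_mul, k2, mul_one] at k1
      have hZ0 : Z ≠ 0 := by
        rintro rfl
        rw [norm_zero] at hZn
        exact zero_ne_one hZn
      refine ⟨2, -1, neg_mem (one_mem _), neg_ne_zero.2 one_ne_zero, Q / Z, ?_, ?_⟩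
      · refine U1.div hI hQm hZm hZn ?_
        rw [← norm_neg, neg_sub]
        exact k1
      · rw [← hQ, eY]
        field_simp

end Pool.Agent.D0H92.L9
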